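import Mathlib
import Pool.Agent.H2.ZeroFreeMain

theorem Pool.Agent.Results.MP_7a9645_co.Formula.result (h n : ℕ) (hh : 0 < h) (hn : 0 < n) :
    ∃ m : ℕ,
      IsGreatest {k : ℕ | ∃ A : Finset (ZMod n),
        (∀ f : Fin h → ZMod n, (∀ i, f i ∈ A) → ∑ i, f i ≠ 0) ∧ A.card = k} m ∧
      IsGreatest {v : ℤ | ∃ d : ℕ, d ∣ n ∧
        v = (((d : ℤ) - 1 - Nat.gcd d h) / h + 1) * (n / d)} m :=
  Pool.Agent.H2.ZeroFree.main h n hh hn
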